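import Pool.Agent.H621Z.PD.Final

set_option autoImplicit false

/-- Restricted density polynomial Hales-Jewett holds above the density
(2^(d-1) - 1) / (2^d - 1), for every d and all large N. -/
theorem Pool.Agent.Results.MP_90b327_co.ASpectralThreshold.result :
    ∀ d : ℕ, 1 ≤ d → ∀ δ : ℝ, ((2 : ℝ) ^ (d - 1) - 1) / (2 ^ d - 1) < δ →
      ∃ N₀ : ℕ, ∀ N : ℕ, N₀ ≤ N → ∀ S : Finset (Finset (Fin d → Fin N)),
        (S.card : ℝ) > δ * (2 : ℝ) ^ (N ^ d) →
          ∃ A ∈ S, ∃ γ : Finset (Fin N), γ.Nonempty ∧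
            Disjoint A (Fintype.piFinset (fun _ : Fin d => γ)) ∧
            A ∪ Fintype.piFinset (fun _ : Fin d => γ) ∈ S :=
  Pool.Agent.H621Z.PD.main
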